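import Mathlib
import Pool.Agent.H96.SP3

open Complex Finset Real MeasureTheory Filter Topology
open Pool.Agent.H96.SP

namespace Pool.Agent.Results.MP_90e10c_an.No

/-- The exponential `e_l (x) = exp (-2 π i l x)`. -/
noncomputable def e (l : ℝ) (x : ℝ) : ℂ := Complex.exp (-2 * π * I * l * x)

/-- `(μ, Λ)` is a spectral pair: the exponentials `e_l`, `l ∈ Λ`, form an orthonormal
(Hilbert) basis of `L²(μ)`. -/
def Spectral (μ : Measure ℝ) (Λ : Set ℝ) : Prop :=
  ∃ b : HilbertBasis Λ ℂ (Lp ℂ 2 μ), ∀ l : Λ, (b l : ℝ → ℂ) =ᵐ[μ] e l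

lemma e_eq (l x : ℝ) : e l x = ex (l * x) := by
  unfold e ex
  congr 1
  push_cast
  ring

lemma uniq_real (μ : Measure ℝ) [IsFiniteMeasure μ] (v : ℝ → ℝ) (hv : Integrable v μ)
    (h : ∀ t : ℝ, ∫ x, ex (t * x) * v x ∂μ = 0) : v =ᵐ[μ] 0 := by
  have key : ∀ w : ℝ → ℝ, Integrable w μ → ∀ t : ℝ,
      charFun (μ.withDensity fun x => ENNReal.ofReal (w x)) t =
        ∫ x, ex (-t / (2 * π) * x) * (max (w x) 0 : ℝ) ∂μ := by
    intro w hw t
    rw [charFun_apply_real, integral_withDensity_eq_integral_toReal_smul₀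
      hw.1.aemeasurable.ennreal_ofReal (ae_of_all _ fun x => ENNReal.ofReal_lt_top)]
    refine integral_congr_ae (ae_of_all _ fun x => ?_)
    simp only
    rw [ENNReal.toReal_ofReal', Complex.real_smul, mul_comm]
    congr 1
    unfold ex
    congr 1
    push_cast
    have : (π : ℂ) ≠ 0 := by exact_mod_cast Real.pi_ne_zero
    field_simp
  have hint : ∀ w : ℝ → ℝ, Integrable w μ → ∀ t : ℝ,
      Integrable (fun x => ex (t * x) * (w x : ℝ)) μ := by
    intro w hw t
    exact hw.ofReal.bdd_mul (c := 1)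
      (continuous_ex.comp (continuous_const.mul continuous_id)).aestronglyMeasurable
      (ae_of_all _ fun x => (norm_ex _).le)
  have i1 := isFiniteMeasure_withDensity_ofReal hv.2
  have i2 := isFiniteMeasure_withDensity_ofReal hv.neg.2
  have h1 : (μ.withDensity fun x => ENNReal.ofReal (v x)) =
      μ.withDensity fun x => ENNReal.ofReal ((-v) x) := by
    refine Measure.ext_of_charFun ?_
    ext t
    rw [key v hv, key (-v) hv.neg, ← sub_eq_zero, ← integral_sub (hint _ hv.pos_part _)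
      (hint _ hv.neg.pos_part _), ← h (-t / (2 * π))]
    refine integral_congr_ae (ae_of_all _ fun x => ?_)
    simp only [Pi.neg_apply]
    rw [← mul_sub, ← Complex.ofReal_sub, max_zero_sub_max_neg_zero_eq_self]
  rw [withDensity_eq_iff hv.1.aemeasurable.ennreal_ofReal hv.neg.1.aemeasurable.ennreal_ofReal
    hv.lintegral_lt_top.ne] at h1
  filter_upwards [h1] with x hx
  have := congrArg ENNReal.toReal hx
  rw [ENNReal.toReal_ofReal', ENNReal.toReal_ofReal'] at this
  simp only [Pi.neg_apply] at this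
  rw [← max_zero_sub_max_neg_zero_eq_self (v x), this]
  simp

lemma uniq (μ : Measure ℝ) [IsFiniteMeasure μ] (f : ℝ → ℂ) (hf : Integrable f μ)
    (h : ∀ t : ℝ, ∫ x, ex (t * x) * f x ∂μ = 0) : f =ᵐ[μ] 0 := by
  have hint : ∀ w : ℝ → ℂ, Integrable w μ → ∀ t : ℝ,
      Integrable (fun x => ex (t * x) * w x) μ := by
    intro w hw t
    exact hw.bdd_mul (c := 1)
      (continuous_ex.comp (continuous_const.mul continuous_id)).aestronglyMeasurable
      (ae_of_all _ fun x => (norm_ex _).le)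
  have hc : Integrable (fun x => (starRingEnd ℂ) (f x)) μ :=
    Complex.conjCLE.toContinuousLinearMap.integrable_comp hf
  have h' : ∀ t : ℝ, ∫ x, ex (t * x) * (starRingEnd ℂ) (f x) ∂μ = 0 := by
    intro t
    have := congrArg (starRingEnd ℂ) (h (-t))
    rw [← integral_conj, map_zero] at this
    rw [← this]
    refine integral_congr_ae (ae_of_all _ fun x => ?_)
    simp only [map_mul, conj_ex, neg_mul, neg_neg]
  have h1 : (fun x => (f x).re) =ᵐ[μ] 0 := by
    refine uniq_real μ _ hf.re fun t => ?_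
    have : ∀ x, ex (t * x) * ((f x).re : ℂ) =
        (ex (t * x) * f x + ex (t * x) * (starRingEnd ℂ) (f x)) / 2 := by
      intro x; rw [Complex.re_eq_add_conj]; ring
    simp_rw [this]
    rw [integral_div, integral_add (hint _ hf t) (hint _ hc t), h, h']
    simp
  have h2 : (fun x => (f x).im) =ᵐ[μ] 0 := by
    refine uniq_real μ _ hf.im fun t => ?_
    have : ∀ x, ex (t * x) * ((f x).im : ℂ) =
        (ex (t * x) * f x - ex (t * x) * (starRingEnd ℂ) (f x)) / (2 * I) := by
      intro x; rw [Complex.im_eq_sub_conj]; ring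
    simp_rw [this]
    rw [integral_div, integral_sub (hint _ hf t) (hint _ hc t), h, h']
    simp
  filter_upwards [h1, h2] with x a b
  exact Complex.ext a b

lemma e_mem (l : ℝ) : MemLp (e l) 2 mu := by
  refine MemLp.of_bound ?_ 1 (ae_of_all _ fun x => by rw [e_eq, norm_ex])
  have : e l = fun x => ex (l * x) := funext (e_eq l)
  rw [this]
  exact (continuous_ex.comp (continuous_const.mul continuous_id)).aestronglyMeasurable

noncomputable def E (l : ℝ) : Lp ℂ 2 mu := (e_mem l).toLp _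

lemma E_ae (l : ℝ) : (E l : ℝ → ℂ) =ᵐ[mu] e l := MemLp.coeFn_toLp _

lemma inner_E (l : ℝ) (f : Lp ℂ 2 mu) : inner ℂ (E l) f = ∫ x, ex (-l * x) * f x ∂mu := by
  rw [L2.inner_def]
  refine integral_congr_ae ?_
  filter_upwards [E_ae l] with x hx
  rw [hx, e_eq, RCLike.inner_apply, conj_ex, mul_comm, neg_mul]

lemma inner_EE (a b : ℝ) : inner ℂ (E a) (E b) = F (b - a) := by
  rw [inner_E]
  refine integral_congr_ae ?_
  filter_upwards [E_ae b] with x hx
  rw [hx, e_eq, ← ex_add]
  congr 1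
  ring

lemma F_zero' : F 0 = 1 := by simp [F, ex_zero]

lemma norm_E (a : ℝ) : ‖E a‖ = 1 := by
  have h := inner_EE a a
  rw [sub_self, F_zero', inner_self_eq_norm_sq_to_K] at h
  have h2 : ‖E a‖ ^ 2 = 1 := by
    have h3 : ((‖E a‖ ^ 2 : ℝ) : ℂ) = ((1 : ℝ) : ℂ) := by push_cast; exact h
    exact Complex.ofReal_injective h3
  have := norm_nonneg (E a)
  nlinarith

def Lam : Set ℝ := {x | ∃ n, ∃ a ∈ L n, x = (a : ℝ)}

lemma orth : Orthonormal ℂ fun l : Lam => E l := by
  refine ⟨fun l => norm_E _, ?_⟩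
  rintro ⟨_, n, a, ha, rfl⟩ ⟨_, k, b, hb, rfl⟩ hne
  have hab : b ≠ a := by rintro rfl; exact hne rfl
  obtain ⟨j, _, hj⟩ := L_orth (max n k) b (L_mono (le_max_right _ _) hb) a
    (L_mono (le_max_left _ _) ha) hab
  simp only
  rw [inner_EE, F_zero hj]

lemma bessel (n : ℕ) (g : Lp ℂ 2 mu) : ∑ a ∈ L n, ‖inner ℂ (E a) g‖ ^ 2 ≤ ‖g‖ ^ 2 := by
  let φ : L n → Lam := fun a => ⟨(a : ℕ), n, a, a.2, rfl⟩
  have hφ : Function.Injective φ := by
    intro a b h
    have : ((a : ℕ) : ℝ) = (b : ℕ) := congrArg Subtype.val h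
    exact Subtype.ext (by exact_mod_cast this)
  have := (orth.comp φ hφ).sum_inner_products_le (s := univ) g
  rw [← Finset.sum_coe_sort]
  exact this

lemma total (f : Lp ℂ 2 mu) (hf : ∀ l : Lam, inner ℂ (E l) f = 0) : f = 0 := by
  have h1 : ∀ t : ℝ, inner ℂ (E t) f = 0 := by
    intro t
    have h2 : ∀ s : ℂ, 1 ≤ ‖E t - s • f‖ ^ 2 := by
      intro s
      refine le_of_forall_lt_imp_le_of_dense fun c hc => ?_
      obtain ⟨n, hn⟩ := F_parseval (-t) hc
      refine hn.trans (le_trans (le_of_eq ?_) (bessel n _))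
      refine Finset.sum_congr rfl fun a ha => ?_
      rw [inner_sub_right, inner_smul_right, hf ⟨a, n, a, ha, rfl⟩, mul_zero, sub_zero,
        norm_inner_symm, inner_EE]
      congr 3
      ring
    set c := inner ℂ (E t) f with hc
    set q : ℝ := 1 / (‖f‖ ^ 2 + 1) with hq
    have hq0 : 0 < q := by positivity
    have hq1 : q * ‖f‖ ^ 2 ≤ 1 := by
      rw [hq, div_mul_eq_mul_div, div_le_one (by positivity)]; linarith
    have h3 := h2 (q * (starRingEnd ℂ) c)
    rw [@norm_sub_sq ℂ, norm_E, inner_smul_right, ← hc, norm_smul, norm_mul, mul_assoc,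
      Complex.conj_mul', Complex.norm_real, Real.norm_eq_abs, abs_of_pos hq0, Complex.norm_conj]
      at h3
    have h4 : RCLike.re ((q : ℂ) * (‖c‖ : ℂ) ^ 2) = q * ‖c‖ ^ 2 := by
      rw [← Complex.ofReal_pow, ← Complex.ofReal_mul]; exact Complex.ofReal_re _
    rw [h4] at h3
    have h5 : q * ‖c‖ ^ 2 ≤ 0 := by
      have := mul_le_mul_of_nonneg_left hq1 (show 0 ≤ q * ‖c‖ ^ 2 by positivity)
      nlinarith
    have h6 : ‖c‖ ^ 2 ≤ 0 := by
      by_contra h7
      push Not at h7
      nlinarith [mul_pos hq0 h7]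
    have : ‖c‖ = 0 := by nlinarith [norm_nonneg c]
    exact norm_eq_zero.1 this
  have h2 := uniq mu f ((Lp.memLp f).integrable (by norm_num)) fun t => by
    have := h1 (-t)
    rwa [inner_E, neg_neg] at this
  exact Lp.ext (h2.trans (Lp.coeFn_zero _ _ _).symm)

lemma spectral : Spectral mu Lam := by
  refine ⟨HilbertBasis.mkOfOrthogonalEqBot orth ?_, fun l => ?_⟩
  · rw [Submodule.eq_bot_iff]
    intro f hf
    exact total f fun l => Submodule.inner_right_of_mem_orthogonal
      (Submodule.subset_span (Set.mem_range_self (f := fun l : Lam => E l) l)) hf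
  · rw [HilbertBasis.coe_mkOfOrthogonalEqBot]
    exact E_ae _

lemma B_ge (n : ℕ) : n < B n := by
  induction n with
  | zero => simp [B]
  | succ n ih => simp only [B]; nlinarith [B_pos n]

lemma noatom (x : ℝ) : mu {x} = 0 := by
  have hm : mu {x} ≠ ⊤ := measure_ne_top _ _
  let g : Lp ℂ 2 mu := indicatorConstLp 2 (measurableSet_singleton x) hm (1 : ℂ)
  have h1 : ∀ l : ℝ, ‖inner ℂ (E l) g‖ = mu.real {x} := by
    intro l
    rw [inner_E, integral_congr_ae (g := Set.indicator {x} fun y => ex (-l * x))]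
    · rw [integral_indicator (measurableSet_singleton x), setIntegral_const, norm_smul, norm_ex,
        mul_one, Real.norm_eq_abs, abs_of_nonneg measureReal_nonneg]
    · filter_upwards [indicatorConstLp_coeFn (p := 2) (hs := measurableSet_singleton x)
        (hμs := hm) (c := (1 : ℂ))] with y hy
      simp only [g]
      rw [hy]
      by_cases h : y = x
      · subst h; simp
      · simp [h]
  have hs := orth.inner_products_summable g
  simp only [h1] at hs
  have hinf : Infinite Lam := by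
    refine Set.infinite_coe_iff.2 (Set.infinite_of_not_bddAbove ?_)
    rintro ⟨M, hM⟩
    obtain ⟨n, hn⟩ := exists_nat_gt M
    have h2 := hM ⟨n + 1, B n, B_mem n, rfl⟩
    have : (n : ℝ) < B n := by exact_mod_cast B_ge n
    linarith
  rw [summable_const_iff] at hs
  have : mu.real {x} = 0 := by simpa using hs
  exact (measureReal_eq_zero_iff hm).1 this

lemma complete {t : ℝ} (h : Spectral mu ((fun l => t * l) '' Lam)) : t = 1 ∨ t = -1 := by
  obtain ⟨b, hb⟩ := h
  have hbE : ∀ l, b l = E l := fun l => Lp.ext ((hb l).trans (E_ae _).symm)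
  have h0 : (0 : ℝ) ∈ Lam := ⟨0, 0, zero_mem 0, by simp⟩
  have hB : ∀ k, (B k : ℝ) ∈ Lam := fun k => ⟨k + 1, B k, B_mem k, rfl⟩
  have ht : t ≠ 0 := by
    rintro rfl
    have h1 : b.repr (E (B 0)) = 0 := by
      ext l
      rw [b.repr_apply_apply, hbE]
      obtain ⟨_, y, _, rfl⟩ := l
      simp only [zero_mul]
      have := orth.2 (i := ⟨0, h0⟩) (j := ⟨_, hB 0⟩) (by simp [B])
      simpa using this
    have h2 := b.repr.norm_map (E (B 0))
    rw [h1, norm_E] at h2
    simp at h2
  refine m_zero_scale fun k => F_eq_zero ?_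
  have hk : (B k : ℝ) ≠ 0 := by exact_mod_cast (B_pos k).ne'
  have := b.orthonormal.2 (i := ⟨t * 0, _, h0, rfl⟩) (j := ⟨t * B k, _, hB k, rfl⟩)
    (by simp [ht, (B_pos k).ne'])
  simp only [hbE] at this
  rw [inner_EE] at this
  simpa using this

theorem result : ∃ (μ : Measure ℝ) (Λ : Set ℝ), IsProbabilityMeasure μ ∧
    (∃ K : Set ℝ, IsCompact K ∧ μ Kᶜ = 0) ∧ Λ.Countable ∧ Spectral μ Λ ∧
    μ.MutuallySingular volume ∧ (∀ x, μ {x} = 0) ∧
    {t : ℝ | Spectral μ ((fun l => t * l) '' Λ)} ⊆ {1, -1} ∧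
    {t : ℝ | Spectral μ ((fun l => t * l) '' Λ)}.Finite := by
  have h : {t : ℝ | Spectral mu ((fun l => t * l) '' Lam)} ⊆ {1, -1} := fun t ht => complete ht
  refine ⟨mu, Lam, inferInstance, ⟨_, compact_range, mu_compl⟩, ?_, spectral,
    ⟨(Set.range X)ᶜ, compact_range.measurableSet.compl, mu_compl, by rw [compl_compl, vol_range]⟩,
    noatom, h, (Set.toFinite _).subset h⟩
  refine (Set.countable_range (fun a : ℕ => (a : ℝ))).mono ?_
  rintro _ ⟨n, a, _, rfl⟩
  exact ⟨a, rfl⟩

end Pool.Agent.Results.MP_90e10c_an.No
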